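import Pool.Agent.Helper23.GK.StB

/-! Project GK, module ES2: residue classes, power saving -/

set_option autoImplicit false

namespace Pool.Agent.Helper19.GK

open Pool.Agent.Helper23.GK Finset
open Pool.Agent.Helper2.MR (ch)

private lemma triv_ES2 (N N' q u : ℕ) (t : ℝ) (h1 : N ≤ N') (h2 : N' ≤ 2 * N) :
    ‖∑ n ∈ (Ioc N N').filter (fun n => n ≡ u [MOD q]), ch t n‖ ≤ N := by
  have h3 : ∀ n ∈ (Ioc N N').filter (fun n => n ≡ u [MOD q]), ‖ch t n‖ ≤ 1 := by
    intro n _
    unfold ch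
    rw [Complex.norm_exp_ofReal_mul_I]
  refine (norm_sum_le_of_le _ h3).trans ?_
  rw [sum_const, nsmul_eq_mul, mul_one]
  have h4 : ((Ioc N N').filter (fun n => n ≡ u [MOD q])).card ≤ N := by
    refine (card_filter_le _ _).trans ?_
    rw [Nat.card_Ioc]
    omega
  exact_mod_cast h4

private lemma two48_ES2 {X : ℝ} (hX : 0 < X) (h : X ≤ 2 ^ 48) : X ^ (1 / 12 : ℝ) ≤ 16 := by
  calc X ^ (1 / 12 : ℝ) ≤ ((2:ℝ) ^ 48) ^ (1 / 12 : ℝ) := Real.rpow_le_rpow hX.le h (by norm_num)
    _ = 16 := by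
      rw [← Real.rpow_natCast, ← Real.rpow_mul (by norm_num)]
      norm_num

theorem hES2 (hV : StVin) (hE : StEms) (hR : StRes) : StEs2 := by
  obtain ⟨C2, c0, hC2, hc0, hc01, hV⟩ := hV
  obtain ⟨C1, hC1, hE⟩ := hE
  obtain ⟨ε, hεd⟩ : ∃ ε : ℝ, ε = c0 / 4802 := ⟨_, rfl⟩
  have hε : 0 < ε := by rw [hεd]; positivity
  have hε1 : ε ≤ 1 / 2 := by
    rw [hεd, div_le_iff₀ (by norm_num)]
    linarith
  refine ⟨20 + C1 + C2 * (2 / ε), ε / 24, by positivity, by positivity, ?_⟩
  intro X N N' q u t hX hXN hN hN' hq ht htX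
  have hX0 : 0 < X := by linarith
  have hX1 : 1 ≤ X := by linarith
  have ht0 : 0 < |t| := by linarith
  have hT := triv_ES2 N N' q u t hN hN'
  have hN0 : (0 : ℝ) ≤ N := Nat.cast_nonneg N
  have hq1 : (1 : ℝ) ≤ q := by exact_mod_cast hq
  have hP : 0 < X ^ (-(ε / 24)) := Real.rpow_pos_of_pos hX0 _
  have hXc : X ^ (ε / 24) * X ^ (-(ε / 24)) = 1 := by
    rw [← Real.rpow_add hX0]
    norm_num
  have hc12 : X ^ (ε / 24) ≤ X ^ (1 / 12 : ℝ) :=
    Real.rpow_le_rpow_of_exponent_le hX1 (by linarith)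
  have hD : 0 < C2 * (2 / ε) := by positivity
  have hti : 0 ≤ 1 / |t| := by positivity
  -- the general form of the trivial bound
  have htriv : ∀ K : ℝ, 0 ≤ K → K ≤ 20 → 1 ≤ K * (q * X ^ (-(ε / 24))) →
      (N : ℝ) ≤ (20 + C1 + C2 * (2 / ε)) * q * N * (1 / |t| + X ^ (-(ε / 24))) := by
    intro K hK0 hK hKq
    have a1 : (N : ℝ) ≤ N * (K * (q * X ^ (-(ε / 24)))) := le_mul_of_one_le_right hN0 hKq
    have a2 : (N : ℝ) * (K * (q * X ^ (-(ε / 24)))) ≤
        (20 + C1 + C2 * (2 / ε)) * q * N * X ^ (-(ε / 24)) := by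
      have h0 : 0 ≤ (N : ℝ) * (q * X ^ (-(ε / 24))) := by positivity
      have e1 : (N : ℝ) * (K * (q * X ^ (-(ε / 24)))) = K * (N * (q * X ^ (-(ε / 24)))) := by ring
      have e2 : (20 + C1 + C2 * (2 / ε)) * q * N * X ^ (-(ε / 24)) =
          (20 + C1 + C2 * (2 / ε)) * (N * (q * X ^ (-(ε / 24)))) := by ring
      rw [e1, e2]
      exact mul_le_mul_of_nonneg_right (by linarith) h0
    have a3 : 0 ≤ (20 + C1 + C2 * (2 / ε)) * q * N * (1 / |t|) := by positivity
    calc (N : ℝ) ≤ (20 + C1 + C2 * (2 / ε)) * q * N * X ^ (-(ε / 24)) := a1.trans a2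
      _ ≤ (20 + C1 + C2 * (2 / ε)) * q * N * (1 / |t|) +
          (20 + C1 + C2 * (2 / ε)) * q * N * X ^ (-(ε / 24)) := by linarith
      _ = _ := by ring
  rcases le_total X (2 ^ 48) with hXs | hXl
  · -- small `X`
    refine hT.trans (htriv 16 (by norm_num) (by norm_num) ?_)
    have a1 := two48_ES2 hX0 hXs
    have a2 : 1 ≤ 16 * X ^ (-(ε / 24)) := by
      rw [← hXc]
      exact mul_le_mul_of_nonneg_right (hc12.trans a1) hP.le
    nlinarith
  · obtain ⟨Y, hY⟩ : ∃ Y : ℝ, Y = X ^ (1 / 24 : ℝ) := ⟨_, rfl⟩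
    have hY4 : 4 ≤ Y := by
      rw [hY]
      calc (4 : ℝ) = ((2:ℝ) ^ 48) ^ (1 / 24 : ℝ) := by
            rw [← Real.rpow_natCast, ← Real.rpow_mul (by norm_num)]
            norm_num
        _ ≤ X ^ (1 / 24 : ℝ) := Real.rpow_le_rpow (by norm_num) hXl (by norm_num)
    have hY0 : 0 < Y := by linarith
    have hYe : X ^ (-(ε / 24)) = Y ^ (-ε) := by
      rw [hY, ← Real.rpow_mul hX0.le]
      congr 1; ring
    have hY2 : X ^ (1 / 12 : ℝ) = Y ^ 2 := by
      rw [hY, ← Real.rpow_natCast, ← Real.rpow_mul hX0.le]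
      norm_num
    have hYN : Y ^ 4 ≤ N := by
      refine le_trans (le_of_eq ?_) hXN
      rw [hY, ← Real.rpow_natCast, ← Real.rpow_mul hX0.le]
      norm_num
    have hlogX : Real.log X = 24 * Real.log Y := by
      rw [hY, Real.log_rpow hX0]
      ring
    rcases lt_or_ge N (q * q) with hA | hB
    · -- large `q`
      refine hT.trans (htriv 1 (by norm_num) (by norm_num) ?_)
      have hA' : (N : ℝ) < (q : ℝ) * q := by exact_mod_cast hA
      have h1 : Y ^ 2 ≤ q := by
        by_contra hcon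
        push Not at hcon
        have : (q : ℝ) * q ≤ Y ^ 2 * Y ^ 2 := by nlinarith
        nlinarith
      have h2 : X ^ (ε / 24) ≤ q := by rw [hY2] at hc12; linarith
      rw [one_mul, ← hXc]
      exact mul_le_mul_of_nonneg_right h2 hP.le
    · obtain ⟨m0, m1, θ, hθ0, hθ1, hm, hm', hmN, hNm, hb⟩ := hR N N' q u t hN hN' hq
      have hm0N : (m0 : ℝ) ≤ N := by
        have : m0 ≤ N := (Nat.le_mul_of_pos_left m0 hq).trans hmN
        exact_mod_cast this
      have hm0Y : Y ≤ m0 := by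
        have b1 : (N : ℝ) ≤ 2 * q * (m0 + 1) := by exact_mod_cast hNm
        have b2 : (q : ℝ) * q ≤ N := by exact_mod_cast hB
        have hNpos : 0 < (N : ℝ) := lt_of_lt_of_le (by positivity) hYN
        have b3 : (N : ℝ) * N ≤ N * (2 * (m0 + 1)) ^ 2 := by
          have c1 : (N : ℝ) * N ≤ (2 * q * (m0 + 1)) * (2 * q * (m0 + 1)) :=
            mul_le_mul b1 b1 hN0 (by positivity)
          have c2 : (2 * (q : ℝ) * (m0 + 1)) * (2 * q * (m0 + 1)) =
              (q * q) * (2 * (m0 + 1)) ^ 2 := by ring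
          rw [c2] at c1
          exact c1.trans (mul_le_mul_of_nonneg_right b2 (by positivity))
        have b4 : (N : ℝ) ≤ (2 * (m0 + 1)) ^ 2 := le_of_mul_le_mul_left b3 hNpos
        have b5 : (Y ^ 2) ^ 2 ≤ (2 * ((m0 : ℝ) + 1)) ^ 2 := by
          calc (Y ^ 2) ^ 2 = Y ^ 4 := by ring
            _ ≤ _ := hYN.trans b4
        have b6 : Y ^ 2 ≤ 2 * ((m0 : ℝ) + 1) := le_of_sq_le_sq b5 (by positivity)
        nlinarith
      have hm0pos : 0 < (m0 : ℝ) := by linarith
      have hm02 : 2 ≤ m0 := by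
        have : (2 : ℝ) ≤ m0 := by linarith
        exact_mod_cast this
      have hYm : (m0 : ℝ) * (m0 : ℝ) ^ (-ε) ≤ N * X ^ (-(ε / 24)) := by
        rw [hYe]
        refine mul_le_mul hm0N ?_ (Real.rpow_nonneg hm0pos.le _) hN0
        exact Real.rpow_le_rpow_of_nonpos hY0 hm0Y (by linarith)
      have hfour : (4 : ℝ) ≤ 4 * (N * X ^ (-(ε / 24))) := by
        have h1 : X ^ (ε / 24) ≤ N := by
          rw [hY2] at hc12
          have : Y ^ 2 ≤ Y ^ 4 := pow_le_pow_right₀ (by linarith) (by norm_num)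
          linarith
        have h2 : 1 ≤ N * X ^ (-(ε / 24)) := by
          rw [← hXc]
          exact mul_le_mul_of_nonneg_right h1 hP.le
        linarith
      -- it is enough to bound the sum of `cs`
      have hfin : ‖∑ m ∈ Ioc m0 m1, cs t θ m‖ ≤
          C1 * (N / |t| + N * X ^ (-(ε / 24))) + C2 * (2 / ε) * (N * X ^ (-(ε / 24))) := by
        rcases lt_or_ge |t| ((m0 : ℝ) ^ (1 / 2 : ℝ)) with hlt | hge
        · have h1 := hE m0 m1 t θ (by omega) hm hm' hθ0 hθ1 ht
          have h2 : (m0 : ℝ) ^ (1 / 2 : ℝ) ≤ (m0 : ℝ) * (m0 : ℝ) ^ (-ε) := by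
            have e : (m0 : ℝ) * (m0 : ℝ) ^ (-ε) = (m0 : ℝ) ^ (1 + -ε) := by
              rw [Real.rpow_add hm0pos, Real.rpow_one]
            rw [e]
            exact Real.rpow_le_rpow_of_exponent_le (by linarith) (by linarith)
          have h3 : (m0 : ℝ) / |t| ≤ N / |t| := div_le_div_of_nonneg_right hm0N ht0.le
          have h4 : 0 ≤ C2 * (2 / ε) * (N * X ^ (-(ε / 24))) := by positivity
          have h5 : C1 * ((m0 : ℝ) / |t| + |t|) ≤ C1 * (N / |t| + N * X ^ (-(ε / 24))) :=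
            mul_le_mul_of_nonneg_left (by linarith) hC1.le
          linarith
        · have h1 := hV m0 m1 t θ hm02 hm hm' hθ0 hθ1 hge
          have hlm : 0 < Real.log m0 := Real.log_pos (by linarith)
          have hlt0 : 0 ≤ Real.log |t| := Real.log_nonneg ht
          have hlt : Real.log |t| ≤ 48 * Real.log m0 := by
            have a1 : Real.log |t| ≤ Real.log (X ^ 2) := Real.log_le_log ht0 htX
            rw [Real.log_pow, Nat.cast_ofNat, hlogX] at a1
            have a2 : Real.log Y ≤ Real.log m0 := Real.log_le_log hY0 hm0Y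
            linarith
          obtain ⟨lam, hlam⟩ : ∃ lam : ℝ, lam = Real.log |t| / Real.log m0 := ⟨_, rfl⟩
          have hlam0 : 0 ≤ lam := by rw [hlam]; positivity
          have hlam1 : lam ≤ 48 := by rw [hlam, div_le_iff₀ hlm]; exact hlt
          rw [← hlam] at h1
          have h2 : 2 * ε ≤ c0 / (1 + lam) ^ 2 := by
            rw [le_div_iff₀ (by positivity), hεd]
            have : (1 + lam) ^ 2 ≤ 2401 := by nlinarith
            have : 2 * (c0 / 4802) * (1 + lam) ^ 2 ≤ 2 * (c0 / 4802) * 2401 :=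
              mul_le_mul_of_nonneg_left this (by positivity)
            linarith
          have h3 : (m0 : ℝ) ^ (1 - c0 / (1 + lam) ^ 2) ≤ (m0 : ℝ) ^ (1 - 2 * ε) :=
            Real.rpow_le_rpow_of_exponent_le (by linarith) (by linarith)
          have h4 : Real.log ((m0 : ℝ) + 1) ≤ 2 / ε * (m0 : ℝ) ^ ε := by
            have a1 := Real.log_le_rpow_div (x := (m0 : ℝ) + 1) (by positivity) hε
            have a2 : ((m0 : ℝ) + 1) ^ ε ≤ (2 * (m0 : ℝ)) ^ ε :=
              Real.rpow_le_rpow (by positivity) (by linarith) hε.le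
            have a3 : (2 * (m0 : ℝ)) ^ ε = 2 ^ ε * (m0 : ℝ) ^ ε :=
              Real.mul_rpow (by norm_num) hm0pos.le
            have a4 : (2 : ℝ) ^ ε ≤ 2 := by
              calc (2 : ℝ) ^ ε ≤ 2 ^ (1 : ℝ) :=
                    Real.rpow_le_rpow_of_exponent_le (by norm_num) (by linarith)
                _ = 2 := Real.rpow_one 2
            have a5 : ((m0 : ℝ) + 1) ^ ε ≤ 2 * (m0 : ℝ) ^ ε := by
              rw [a3] at a2
              exact a2.trans (mul_le_mul_of_nonneg_right a4 (Real.rpow_nonneg hm0pos.le _))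
            calc Real.log ((m0 : ℝ) + 1) ≤ ((m0 : ℝ) + 1) ^ ε / ε := a1
              _ ≤ 2 * (m0 : ℝ) ^ ε / ε := div_le_div_of_nonneg_right a5 hε.le
              _ = _ := by ring
          have h5 : Real.log ((m0 : ℝ) + 1) * (m0 : ℝ) ^ (1 - c0 / (1 + lam) ^ 2) ≤
              2 / ε * ((m0 : ℝ) * (m0 : ℝ) ^ (-ε)) := by
            have e : 2 / ε * (m0 : ℝ) ^ ε * (m0 : ℝ) ^ (1 - 2 * ε) =
                2 / ε * ((m0 : ℝ) * (m0 : ℝ) ^ (-ε)) := by
              rw [mul_assoc, ← Real.rpow_add hm0pos]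
              congr 1
              have : ε + (1 - 2 * ε) = 1 + -ε := by ring
              rw [this, Real.rpow_add hm0pos, Real.rpow_one]
            rw [← e]
            exact mul_le_mul h4 h3 (Real.rpow_nonneg hm0pos.le _)
              (by have := Real.rpow_nonneg hm0pos.le ε; positivity)
          have h6 : C2 * Real.log ((m0 : ℝ) + 1) * (m0 : ℝ) ^ (1 - c0 / (1 + lam) ^ 2) ≤
              C2 * (2 / ε) * (N * X ^ (-(ε / 24))) := by
            rw [mul_assoc, mul_assoc]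
            refine mul_le_mul_of_nonneg_left (h5.trans ?_) hC2.le
            exact mul_le_mul_of_nonneg_left hYm (by positivity)
          have h7 : 0 ≤ C1 * ((N : ℝ) / |t| + N * X ^ (-(ε / 24))) := by positivity
          linarith
      refine hb.trans ?_
      have hG : 0 ≤ (N : ℝ) * (1 / |t| + X ^ (-(ε / 24))) := by positivity
      have h1 : C1 * ((N : ℝ) / |t| + N * X ^ (-(ε / 24))) =
          C1 * (N * (1 / |t| + X ^ (-(ε / 24)))) := by ring
      have h2 : (N : ℝ) * X ^ (-(ε / 24)) ≤ N * (1 / |t| + X ^ (-(ε / 24))) :=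
        mul_le_mul_of_nonneg_left (by linarith) hN0
      have h3 : C2 * (2 / ε) * (N * X ^ (-(ε / 24))) ≤
          C2 * (2 / ε) * (N * (1 / |t| + X ^ (-(ε / 24)))) :=
        mul_le_mul_of_nonneg_left h2 hD.le
      have h4 : (20 + C1 + C2 * (2 / ε)) * (N * (1 / |t| + X ^ (-(ε / 24)))) ≤
          (20 + C1 + C2 * (2 / ε)) * q * N * (1 / |t| + X ^ (-(ε / 24))) := by
        have e : (20 + C1 + C2 * (2 / ε)) * q * N * (1 / |t| + X ^ (-(ε / 24))) =
          (20 + C1 + C2 * (2 / ε)) * (N * (1 / |t| + X ^ (-(ε / 24)))) * q := by ring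
        rw [e]
        exact le_mul_of_one_le_right (by positivity) hq1
      rw [h1] at hfin
      obtain ⟨G, hGd⟩ : ∃ G : ℝ, G = (N : ℝ) * (1 / |t| + X ^ (-(ε / 24))) := ⟨_, rfl⟩
      rw [← hGd] at hG h2 h3 h4 hfin
      refine le_trans ?_ h4
      have e : (20 + C1 + C2 * (2 / ε)) * G = 20 * G + C1 * G + C2 * (2 / ε) * G := by ring
      rw [e]
      linarith

end Pool.Agent.Helper19.GK
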