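import Pool.Agent.Helper23.GK.StB

/-! Project GK, module ES3: residue classes, simple bound -/

set_option autoImplicit false

namespace Pool.Agent.Helper19.GK

open Pool.Agent.Helper23.GK Finset

theorem hES3 (hE : StEms) (hR : StRes) : StEs3 := by
  obtain ⟨C, hC, hE⟩ := hE
  refine ⟨C + 4, by linarith, fun N N' q u t h1 h2 hq ht => ?_⟩
  obtain ⟨m0, m1, θ, hθ0, hθ1, hm, hm', hmN, _, hb⟩ := hR N N' q u t h1 h2 hq
  have ht0 : 0 < |t| := by linarith
  have hN : (0 : ℝ) ≤ N := Nat.cast_nonneg N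
  have hpos : 0 ≤ (N : ℝ) / |t| := by positivity
  have hm0N : (m0 : ℝ) ≤ N := by
    have : m0 ≤ N := (Nat.le_mul_of_pos_left m0 hq).trans hmN
    exact_mod_cast this
  have hs : ‖∑ m ∈ Ioc m0 m1, cs t θ m‖ ≤ C * (N / |t| + |t|) := by
    rcases Nat.eq_zero_or_pos m0 with h0 | h0
    · have : m1 = 0 := by omega
      rw [h0, this]
      simp only [Ioc_self, sum_empty, norm_zero]
      positivity
    · refine (hE m0 m1 t θ h0 hm hm' hθ0 hθ1 ht).trans ?_
      refine mul_le_mul_of_nonneg_left ?_ hC.le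
      have : (m0 : ℝ) / |t| ≤ N / |t| := div_le_div_of_nonneg_right hm0N ht0.le
      linarith
  refine hb.trans ?_
  nlinarith

end Pool.Agent.Helper19.GK
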