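import Pool.Agent.Helper23.GK.StC

/-! Project GK, module MUK: derivatives of `1/L` -/

set_option autoImplicit false

namespace Pool.Agent.Helper19.GK

open Pool.Agent.Helper23.GK Finset ArithmeticFunction Filter Topology

private lemma el_ge_MUK {t : ℝ} (ht : 29 ≤ |t|) : 3 ≤ el t := by
  unfold el
  rw [Real.le_log_iff_exp_le (by positivity)]
  have h1 : Real.exp 3 = Real.exp 1 ^ 3 := by rw [← Real.exp_nat_mul]; norm_num
  have h2 := Real.exp_one_lt_d9
  have h3 : 0 < Real.exp 1 := Real.exp_pos 1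
  rw [h1]
  have h4 : Real.exp 1 ^ 3 ≤ 2.72 ^ 3 := pow_le_pow_left₀ h3.le (by linarith) 3
  norm_num at h4
  linarith

private lemma el_cmp_MUK {t t' : ℝ} (ht : 29 ≤ |t|) (h : |t' - t| ≤ 1 / 4) :
    el t' ≤ el t + 1 / 4 := by
  unfold el
  have h1 : |t'| ≤ |t| + 1 / 4 := by
    have := abs_add_le t (t' - t)
    rw [add_sub_cancel] at this
    linarith
  have h2 : Real.log (|t'| + 3) ≤ Real.log ((|t| + 3) * (1 + 1 / 4)) := by
    apply Real.log_le_log (by positivity)
    nlinarith [abs_nonneg t]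
  have h3 : Real.log ((|t| + 3) * (1 + 1 / 4)) = Real.log (|t| + 3) + Real.log (1 + 1 / 4) :=
    Real.log_mul (by positivity) (by norm_num)
  have h4 : Real.log (1 + 1 / 4) ≤ (1:ℝ) / 4 := by
    have := Real.log_le_sub_one_of_pos (x := 1 + 1 / 4) (by norm_num)
    linarith
  linarith

private lemma log3_MUK {q : ℕ} (hq : 1 ≤ q) {t : ℝ} (ht : 29 ≤ |t|) :
    1 ≤ Real.log (3 * q * el t) ∧ 9 ≤ 3 * q * el t := by
  have h1 := el_ge_MUK ht
  have hq' : (1:ℝ) ≤ q := by exact_mod_cast hq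
  have h2 : 9 ≤ 3 * q * el t := by nlinarith
  refine ⟨?_, h2⟩
  rw [Real.le_log_iff_exp_le (by linarith)]
  have := Real.exp_one_lt_d9
  linarith

private lemma wq_ge_MUK {q : ℕ} (hq : 1 ≤ q) {t : ℝ} (ht : 29 ≤ |t|) : 1 ≤ wq q t := by
  have h1 := el_ge_MUK ht
  unfold wq vv
  have h2 : 1 ≤ el t ^ (9 / 10 : ℝ) := Real.one_le_rpow (by linarith) (by norm_num)
  nlinarith [(log3_MUK hq ht).1]

private lemma wq_cmp_MUK {q : ℕ} (hq : 1 ≤ q) {t t' : ℝ} (ht : 30 ≤ |t|) (h : |t' - t| ≤ 1 / 4) :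
    wq q t' ≤ 4 * wq q t ∧ 3 * q * el t' ≤ 2 * (3 * q * el t) ∧ 29 ≤ |t'| := by
  have ht' : 29 ≤ |t'| := by
    have := abs_sub_abs_le_abs_sub t t'
    rw [abs_sub_comm] at this
    linarith
  have hq' : (1:ℝ) ≤ q := by exact_mod_cast hq
  have e0 := el_ge_MUK (t := t) (by linarith)
  have e0' := el_ge_MUK (t := t') ht'
  have e1 := el_cmp_MUK (t := t) (t' := t') (by linarith) h
  have e2 : el t' ≤ 2 * el t := by linarith
  have e3 : 3 * q * el t' ≤ 2 * (3 * q * el t) := by nlinarith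
  refine ⟨?_, e3, ht'⟩
  have v1 : vv t' ≤ 2 * vv t := by
    unfold vv
    calc el t' ^ (9 / 10 : ℝ) ≤ (2 * el t) ^ (9 / 10 : ℝ) :=
          Real.rpow_le_rpow (by linarith) e2 (by norm_num)
      _ = 2 ^ (9 / 10 : ℝ) * el t ^ (9 / 10 : ℝ) := Real.mul_rpow (by norm_num) (by linarith)
      _ ≤ 2 * el t ^ (9 / 10 : ℝ) := by
          refine mul_le_mul_of_nonneg_right ?_ (Real.rpow_nonneg (by linarith) _)
          calc (2:ℝ) ^ (9 / 10 : ℝ) ≤ 2 ^ (1 : ℝ) :=
                Real.rpow_le_rpow_of_exponent_le (by norm_num) (by norm_num)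
            _ = 2 := Real.rpow_one 2
  obtain ⟨l1, l2⟩ := log3_MUK hq (t := t) (by linarith)
  obtain ⟨l1', l2'⟩ := log3_MUK hq (t := t') ht'
  have l3 : Real.log (3 * q * el t') ≤ 2 * Real.log (3 * q * el t) := by
    have a1 : Real.log (3 * q * el t') ≤ Real.log (2 * (3 * q * el t)) :=
      Real.log_le_log (by linarith) e3
    have a2 : Real.log (2 * (3 * q * el t)) = Real.log 2 + Real.log (3 * q * el t) :=
      Real.log_mul (by norm_num) (by linarith)
    have a3 : Real.log 2 ≤ 1 := by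
      have := Real.log_le_sub_one_of_pos (x := 2) (by norm_num)
      linarith
    linarith
  have hv0 : 0 ≤ vv t := Real.rpow_nonneg (by linarith) _
  unfold wq
  calc vv t' * Real.log (3 * q * el t') ≤ (2 * vv t) * (2 * Real.log (3 * q * el t)) :=
        mul_le_mul v1 l3 (by linarith) (by linarith)
    _ = 4 * (vv t * Real.log (3 * q * el t)) := by ring

private lemma Mk_MUK {q : ℕ} (χ : DirichletCharacter ℂ q) (k : ℕ) :
    LSeries.logMul^[k] (Mk χ 0) = Mk χ k := by
  induction k with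
  | zero => rfl
  | succ k ih =>
    rw [Function.iterate_succ_apply', ih]
    funext n
    show Complex.log n * Mk χ k n = Mk χ (k + 1) n
    unfold Mk
    rw [pow_succ, Complex.natCast_log]
    ring

private lemma one_MUK (k : ℕ) : LSeries.logMul^[k] (1 : ℕ → ℂ) =
    fun n : ℕ => ((Real.log n : ℝ) : ℂ) ^ k := by
  induction k with
  | zero => funext n; simp
  | succ k ih =>
    rw [Function.iterate_succ_apply', ih]
    funext n
    show Complex.log n * ((Real.log n : ℝ) : ℂ) ^ k = ((Real.log n : ℝ) : ℂ) ^ (k + 1)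
    rw [pow_succ, Complex.natCast_log]
    ring

private lemma Mk_norm_MUK {q : ℕ} (χ : DirichletCharacter ℂ q) (k n : ℕ) :
    ‖Mk χ k n‖ ≤ ‖((Real.log n : ℝ) : ℂ) ^ k‖ := by
  unfold Mk
  rw [norm_mul, norm_mul]
  have h1 : ‖((moebius n : ℤ) : ℂ)‖ ≤ 1 := by
    rw [Complex.norm_intCast]
    exact_mod_cast ArithmeticFunction.abs_moebius_le_one
  have h2 : ‖χ (n : ZMod q)‖ ≤ 1 := χ.norm_le_one _
  have h3 : ‖((moebius n : ℤ) : ℂ)‖ * ‖χ (n : ZMod q)‖ ≤ 1 := by
    calc _ ≤ 1 * 1 := mul_le_mul h1 h2 (norm_nonneg _) zero_le_one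
      _ = 1 := one_mul 1
  exact mul_le_of_le_one_left (norm_nonneg _) h3

private lemma absc_MUK {q : ℕ} (χ : DirichletCharacter ℂ q) {s : ℂ} (hs : 1 < s.re) :
    LSeries.abscissaOfAbsConv (Mk χ 0) < s.re := by
  refine lt_of_le_of_lt (LSeries.abscissaOfAbsConv_le_of_le_const ⟨1, fun n _ => ?_⟩) ?_
  · have := Mk_norm_MUK χ 0 n
    simpa using this
  · exact_mod_cast hs

/-- the trivial bound -/
private lemma triv_MUK (k : ℕ) : ∃ S : ℝ, 0 ≤ S ∧ ∀ (q : ℕ) (χ : DirichletCharacter ℂ q) (s : ℂ),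
    3 / 2 ≤ s.re → ‖LSeries (Mk χ k) s‖ ≤ S := by
  let g : ℕ → ℂ := fun n => ((Real.log n : ℝ) : ℂ) ^ k
  have hg : LSeriesSummable g ((3 / 2 : ℝ) : ℂ) := by
    have h1 : LSeries.abscissaOfAbsConv (LSeries.logMul^[k] (1 : ℕ → ℂ)) < ((3 / 2 : ℝ) : ℂ).re := by
      rw [LSeries.absicssaOfAbsConv_logPowMul]
      refine lt_of_le_of_lt (LSeries.abscissaOfAbsConv_le_of_le_const
        (f := (1 : ℕ → ℂ)) ⟨1, fun n _ => by simp⟩) ?_
      rw [Complex.ofReal_re]
      have : (1 : EReal) = ((1 : ℝ) : EReal) := rfl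
      rw [this, EReal.coe_lt_coe_iff]
      norm_num
    have h2 := LSeriesSummable_of_abscissaOfAbsConv_lt_re h1
    rwa [one_MUK] at h2
  refine ⟨∑' n, ‖LSeries.term g ((3 / 2 : ℝ) : ℂ) n‖, tsum_nonneg fun n => norm_nonneg _,
    fun q χ s hs => ?_⟩
  have hb : ∀ n, ‖LSeries.term (Mk χ k) s n‖ ≤ ‖LSeries.term g ((3 / 2 : ℝ) : ℂ) n‖ := fun n =>
    (LSeries.norm_term_le_of_re_le_re (Mk χ k) (by rw [Complex.ofReal_re]; exact hs) n).trans
      (LSeries.norm_term_le _ (Mk_norm_MUK χ k n))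
  have hgn : Summable fun n => ‖LSeries.term g ((3 / 2 : ℝ) : ℂ) n‖ := hg.norm
  exact tsum_of_norm_bounded hgn.hasSum hb

/-- `1/L` as a series -/
private lemma inv_MUK (q : ℕ) [NeZero q] (χ : DirichletCharacter ℂ q) {s : ℂ} (hs : 1 < s.re) :
    LSeries (Mk χ 0) s = (DirichletCharacter.LFunction χ s)⁻¹ := by
  have h1 := DirichletCharacter.LSeries.mul_mu_eq_one χ hs
  have h2 := DirichletCharacter.LFunction_eq_LSeries χ hs
  have e : LSeries (Mk χ 0) s = LSeries ((fun n : ℕ => χ (n : ZMod q)) *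
      (fun n : ℕ => ((moebius n : ℤ) : ℂ))) s := by
    congr 1
    funext n
    unfold Mk
    rw [pow_zero, mul_one, Pi.mul_apply, mul_comm]
  rw [e, h2]
  exact eq_inv_of_mul_eq_one_right h1

theorem hMUK (hI : StInv) : StMuk := by
  obtain ⟨c, hc0, hc1, C, hI⟩ := hI
  refine ⟨C, fun k => ?_⟩
  obtain ⟨S, hS0, hS⟩ := triv_MUK k
  refine ⟨k.factorial * 2 ^ C * (4 / c) ^ k + S + 1, by positivity, ?_⟩
  intro q _ χ σ t ht hq hσ1 hσ2
  have hq1 : 1 ≤ q := Nat.one_le_iff_ne_zero.2 (NeZero.ne q)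
  have hW1 : 1 ≤ wq q t := wq_ge_MUK hq1 (by linarith)
  obtain ⟨_, hE9⟩ := log3_MUK hq1 (t := t) (by linarith)
  have hE1 : 1 ≤ (3 * q * el t) ^ C := one_le_pow₀ (by linarith)
  have hWk : 1 ≤ wq q t ^ k := one_le_pow₀ hW1
  have hWE : 1 ≤ wq q t ^ k * (3 * q * el t) ^ C := by nlinarith
  have hre : ((σ : ℂ) + t * Complex.I).re = σ := by simp
  rcases le_total σ (3 / 2) with hσ | hσ
  · -- Cauchy
    set s : ℂ := σ + t * Complex.I with hs
    have him : s.im = t := by rw [hs]; simp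
    set R : ℝ := c / (4 * wq q t) with hR
    have hW4 : 0 < 4 * wq q t := by linarith
    have hR0 : 0 < R := div_pos hc0 hW4
    have hR4 : R ≤ 1 / 4 := by
      rw [hR, div_le_iff₀ hW4]
      nlinarith
    -- the region
    have hreg : ∀ z : ℂ, ‖z - s‖ ≤ R → DirichletCharacter.LFunction χ z ≠ 0 ∧
        ‖(DirichletCharacter.LFunction χ z)⁻¹‖ ≤ 2 ^ C * (3 * q * el t) ^ C ∧ z ≠ 1 := by
      intro z hz
      have hz1 : |z.re - σ| ≤ R := by
        have := Complex.abs_re_le_norm (z - s)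
        rw [Complex.sub_re, hre] at this
        exact this.trans hz
      have hz2 : |z.im - t| ≤ R := by
        have := Complex.abs_im_le_norm (z - s)
        rw [Complex.sub_im, him] at this
        exact this.trans hz
      obtain ⟨w1, w2, w3⟩ := wq_cmp_MUK hq1 ht (hz2.trans hR4)
      have hWz : 1 ≤ wq q z.im := wq_ge_MUK hq1 w3
      have hlog : Real.log q ≤ el z.im - 2 := by
        have := el_cmp_MUK (t := z.im) (t' := t) w3 (by rw [abs_sub_comm]; exact hz2.trans hR4)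
        linarith
      have hR' : R ≤ c / wq q z.im := by
        rw [hR]
        exact div_le_div_of_nonneg_left hc0.le (by linarith) w1
      have hlow : 1 - c / wq q z.im ≤ z.re := by
        have := (abs_le.1 hz1).1
        linarith
      have hup : z.re ≤ 2 := by
        have := (abs_le.1 hz1).2
        linarith
      have hez : (z.re : ℂ) + z.im * Complex.I = z := Complex.re_add_im z
      have h := hI q χ z.re z.im (by linarith) hlog hlow hup
      rw [hez] at h
      refine ⟨h.1, h.2.trans ?_, ?_⟩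
      · rw [← mul_pow]
        obtain ⟨_, l2⟩ := log3_MUK hq1 (t := z.im) w3
        exact pow_le_pow_left₀ (by linarith) w2 C
      · intro h1
        rw [h1] at w3
        simp at w3
        linarith
    -- Cauchy's estimate
    have hdiff : DiffContOnCl ℂ (fun z => (DirichletCharacter.LFunction χ z)⁻¹)
        (Metric.ball s R) := by
      refine DifferentiableOn.diffContOnCl fun z hz => ?_
      rw [closure_ball s hR0.ne', mem_closedBall_iff_norm] at hz
      obtain ⟨a1, _, a3⟩ := hreg z hz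
      exact ((DirichletCharacter.differentiableAt_LFunction χ z (Or.inl a3)).inv
        a1).differentiableWithinAt
    have hC := Complex.norm_iteratedDeriv_le_of_forall_mem_sphere_norm_le k hR0 hdiff
      (fun z hz => (hreg z (mem_sphere_iff_norm.1 hz).le).2.1)
    -- compare
    have hsre : 1 < s.re := by rw [hre]; exact hσ1
    have hloc : (fun z => (DirichletCharacter.LFunction χ z)⁻¹) =ᶠ[𝓝 s] LSeries (Mk χ 0) := by
      have hopen : IsOpen {z : ℂ | 1 < z.re} := isOpen_lt continuous_const Complex.continuous_re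
      filter_upwards [hopen.mem_nhds hsre] with z hz
      exact (inv_MUK q χ hz).symm
    have hid : iteratedDeriv k (fun z => (DirichletCharacter.LFunction χ z)⁻¹) s =
        (-1) ^ k * LSeries (Mk χ k) s := by
      rw [hloc.iteratedDeriv_eq, LSeries_iteratedDeriv k (absc_MUK χ hsre), Mk_MUK]
    rw [hid, norm_mul, norm_pow, norm_neg, norm_one, one_pow, one_mul] at hC
    refine hC.trans ?_
    have e1 : (k.factorial : ℝ) * (2 ^ C * (3 * q * el t) ^ C) / R ^ k =
        k.factorial * 2 ^ C * (4 / c) ^ k * (wq q t ^ k * (3 * q * el t) ^ C) := by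
      have hw0 : wq q t ≠ 0 := by linarith
      have e2 : 1 / R ^ k = (4 / c) ^ k * wq q t ^ k := by
        rw [← mul_pow, hR, one_div, ← inv_pow, inv_div]
        congr 1
        field_simp
      rw [div_eq_mul_one_div, e2]
      ring
    rw [e1, mul_assoc _ (wq q t ^ k)]
    refine mul_le_mul_of_nonneg_right ?_ (by linarith)
    linarith
  · have h := hS q χ (σ + t * Complex.I) (by rw [hre]; exact hσ)
    refine h.trans ?_
    rw [mul_assoc]
    have hp : 0 ≤ (k.factorial : ℝ) * 2 ^ C * (4 / c) ^ k := by positivity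
    nlinarith

end Pool.Agent.Helper19.GK
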